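import Mathlib
import Pool.Agent.J6H76.MulEnergy.Main

set_option autoImplicit false

/-!
MP_2883d2_nt: large sets of integers with small mixed multiplicative energy.

Question 1 is answered in the affirmative: every pair `(α, β)` with `β ≥ 0`,
`α > (1 - log 2) / 2 = 0.153...` and `α + β > 1/4` is attained, for instance `(3/10, 0)`.
For every `α > 1/4` there are even sets of density `(log N) ^ (-α)` whose energy is
asymptotically the diagonal contribution `N |B_N|`.
-/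

namespace Pool.Agent.Results.MP_2883d2_nt.SmallEnergy

open Finset Filter Topology

/-- The mixed multiplicative energy: the number of `(a, b, c, d)` with `a, c ∈ B`,
`1 ≤ b, d ≤ N` and `a b = c d`. -/
def energy (B : Finset ℕ) (N : ℕ) : ℕ :=
  ((B ×ˢ Icc 1 N ×ˢ B ×ˢ Icc 1 N).filter (fun t => t.1 * t.2.1 = t.2.2.1 * t.2.2.2)).card

/-- The pair `(α, β)` is attained: there is a family `B_N ⊆ {1, ..., N}` of density
`(log N) ^ (-α)` whose mixed multiplicative energy is `O(N |B_N| (log N) ^ β)`. -/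
def Attained (α β : ℝ) : Prop :=
  ∃ B : ℕ → Finset ℕ, (∀ N, B N ⊆ Icc 1 N) ∧
    ∃ c C K : ℝ, 0 < c ∧ ∃ N₀ : ℕ, ∀ N : ℕ, N₀ ≤ N →
      c * ((N : ℝ) * Real.log N ^ (-α)) ≤ ((B N).card : ℝ) ∧
      ((B N).card : ℝ) ≤ C * ((N : ℝ) * Real.log N ^ (-α)) ∧
      (energy (B N) N : ℝ) ≤ K * ((N : ℝ) * (B N).card * Real.log N ^ β)

lemma tendsto_size (α : ℝ) :
    Tendsto (fun N : ℕ => (N : ℝ) * Real.log N ^ (-α)) atTop atTop := by
  have h1 : ∀ᶠ x : ℝ in atTop, ‖Real.log x ^ α‖ ≤ 1 * ‖x ^ (1 / 2 : ℝ)‖ :=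
    (isLittleO_log_rpow_rpow_atTop α (by norm_num : (0 : ℝ) < 1 / 2)).bound one_pos
  have h2 : Tendsto (fun N : ℕ => (N : ℝ) ^ (1 / 2 : ℝ)) atTop atTop :=
    (tendsto_rpow_atTop (by norm_num)).comp tendsto_natCast_atTop_atTop
  refine tendsto_atTop_mono' _ ?_ h2
  filter_upwards [tendsto_natCast_atTop_atTop.eventually h1, eventually_ge_atTop 3] with N hN hN3
  have hN3' : (3 : ℝ) ≤ N := by exact_mod_cast hN3
  have hN0 : (0 : ℝ) < N := by linarith
  have hlog : 0 < Real.log N := Real.log_pos (by linarith)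
  have h3 : 0 < Real.log N ^ α := by positivity
  rw [one_mul, Real.norm_of_nonneg h3.le, Real.norm_of_nonneg (by positivity)] at hN
  rw [Real.rpow_neg hlog.le, ← div_eq_mul_inv, le_div_iff₀ h3]
  calc (N : ℝ) ^ (1 / 2 : ℝ) * Real.log N ^ α ≤ (N : ℝ) ^ (1 / 2 : ℝ) * (N : ℝ) ^ (1 / 2 : ℝ) :=
        mul_le_mul_of_nonneg_left hN (by positivity)
    _ = N := by rw [← Real.rpow_add hN0]; norm_num

/-- The family furnished by the main estimate. -/
lemma exists_family {α η : ℝ} (hα : (1 - Real.log 2) / 2 < α) (hη : 1 / 4 - α < η) :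
    ∃ B : ℕ → Finset ℕ, (∀ N, B N ⊆ Icc 1 N) ∧ ∀ᶠ N : ℕ in atTop,
      (B N).card = ⌊(N : ℝ) * Real.log N ^ (-α)⌋₊ ∧
      (N : ℝ) * (B N).card ≤ energy (B N) N ∧
      (energy (B N) N : ℝ) ≤ N * (B N).card * (1 + Real.log N ^ η) := by
  classical
  have h := Pool.Agent.J6H76.MulEnergy.main_estimate hα hη
  refine ⟨fun N => if h : ∃ B : Finset ℕ, B ⊆ Icc 1 N ∧
      B.card = ⌊(N : ℝ) * Real.log N ^ (-α)⌋₊ ∧
      (Pool.Agent.J6H76.MulEnergy.energy B N : ℝ) ≤ N * B.card * (1 + Real.log N ^ η)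
      then h.choose else ∅, ?_, ?_⟩
  · intro N
    dsimp only
    split_ifs with hN
    · exact hN.choose_spec.1
    · exact Finset.empty_subset _
  · filter_upwards [h] with N hN
    rw [dif_pos hN]
    obtain ⟨h1, h2, h3⟩ := hN.choose_spec
    refine ⟨h2, ?_, h3⟩
    have h4 := Pool.Agent.J6H76.MulEnergy.energy_eq_diag h1
    have h5 := Pool.Agent.J6H76.MulEnergy.W_nonneg
      (Pool.Agent.J6H76.MulEnergy.wN_nonneg N) hN.choose
    show _ ≤ (Pool.Agent.J6H76.MulEnergy.energy hN.choose N : ℝ)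
    rw [h4]; linarith

lemma attained_of {α β : ℝ} (hα : (1 - Real.log 2) / 2 < α) (hβ : 0 ≤ β) (hαβ : 1 / 4 < α + β) :
    Attained α β := by
  obtain ⟨B, hB, hev⟩ := exists_family hα (show 1 / 4 - α < β by linarith)
  have hsize := (tendsto_size α).eventually_ge_atTop 1
  obtain ⟨N₀, hN₀⟩ := Filter.eventually_atTop.1 ((hev.and hsize).and (eventually_ge_atTop 3))
  refine ⟨B, hB, 1 / 2, 1, 2, by norm_num, N₀, fun N hN => ?_⟩
  obtain ⟨⟨⟨h1, -, h2⟩, h3⟩, h4⟩ := hN₀ N hN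
  have hN3' : (3 : ℝ) ≤ N := by exact_mod_cast h4
  have hlog1 : 1 ≤ Real.log N := by
    rw [Real.le_log_iff_exp_le (by linarith)]
    have := Real.exp_one_lt_d9
    linarith
  have h5 : (1 : ℝ) ≤ Real.log N ^ β := Real.one_le_rpow hlog1 hβ
  refine ⟨?_, ?_, ?_⟩
  · have h6 := Nat.lt_floor_add_one ((N : ℝ) * Real.log N ^ (-α))
    have h7 : 1 ≤ ⌊(N : ℝ) * Real.log N ^ (-α)⌋₊ := by rwa [Nat.one_le_floor_iff]
    have h8 : (1 : ℝ) ≤ ((⌊(N : ℝ) * Real.log N ^ (-α)⌋₊ : ℕ) : ℝ) := by exact_mod_cast h7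
    rw [h1]; linarith
  · rw [h1, one_mul]
    exact Nat.floor_le (by linarith)
  · refine h2.trans ?_
    have h6 : (0 : ℝ) ≤ N * (B N).card := by positivity
    nlinarith

/-- Every pair `(α, β)` with `α > (1 - log 2) / 2`, `β ≥ 0` and `α + β > 1/4` is attained. -/
theorem result : ∀ α β : ℝ, (1 - Real.log 2) / 2 < α → 0 ≤ β → 1 / 4 < α + β →
    Attained α β :=
  fun _ _ h1 h2 h3 => attained_of h1 h2 h3

/-- The literal form of Question 1, as a corollary (`α = 3/10`, `β = 0`). -/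
theorem question_one : ∃ α β : ℝ, 0 ≤ α ∧ 0 ≤ β ∧ α + β < 1 / 2 ∧ Attained α β := by
  have hl2 := Real.log_two_gt_d9
  exact ⟨3 / 10, 0, by norm_num, le_rfl, by norm_num,
    result _ _ (by linarith) le_rfl (by norm_num)⟩

/-- For `α > 1/4` the energy can even be made asymptotic to the diagonal contribution. -/
theorem asymptotic_form : ∀ α : ℝ, 1 / 4 < α → ∃ B : ℕ → Finset ℕ, (∀ N, B N ⊆ Icc 1 N) ∧
      Tendsto (fun N : ℕ => ((B N).card : ℝ) / (N * Real.log N ^ (-α))) atTop (𝓝 1) ∧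
      Tendsto (fun N : ℕ => (energy (B N) N : ℝ) / (N * (B N).card)) atTop (𝓝 1) := by
  have hl2 := Real.log_two_gt_d9
  intro α hα
  obtain ⟨B, hB, hev⟩ := exists_family (α := α) (η := (1 / 4 - α) / 2) (by linarith) (by linarith)
  refine ⟨B, hB, ?_, ?_⟩
  · have h1 := (tendsto_nat_floor_div_atTop (R := ℝ)).comp (tendsto_size α)
    refine h1.congr' ?_
    filter_upwards [hev] with N hN
    simp only [Function.comp]
    rw [hN.1]
  · have hsize := (tendsto_size α).eventually_ge_atTop 1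
    have h0 : Tendsto (fun N : ℕ => Real.log (N : ℝ) ^ ((1 / 4 - α) / 2)) atTop (𝓝 0) := by
      have h1 := (tendsto_rpow_neg_atTop (show 0 < (α - 1 / 4) / 2 by linarith)).comp
        (Real.tendsto_log_atTop.comp tendsto_natCast_atTop_atTop)
      refine h1.congr fun N => ?_
      simp only [Function.comp]
      congr 1
      ring
    have hup : Tendsto (fun N : ℕ => 1 + Real.log (N : ℝ) ^ ((1 / 4 - α) / 2)) atTop (𝓝 1) := by
      simpa using h0.const_add 1
    refine tendsto_of_tendsto_of_tendsto_of_le_of_le' tendsto_const_nhds hup ?_ ?_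
    · filter_upwards [hev, hsize, eventually_ge_atTop 3] with N hN hs hN3
      have h7 : 1 ≤ ⌊(N : ℝ) * Real.log N ^ (-α)⌋₊ := by rwa [Nat.one_le_floor_iff]
      have hc : (0 : ℝ) < (B N).card := by rw [hN.1]; exact_mod_cast h7
      have hN3' : (3 : ℝ) ≤ N := by exact_mod_cast hN3
      rw [le_div_iff₀ (by positivity), one_mul]
      exact hN.2.1
    · filter_upwards [hev, hsize, eventually_ge_atTop 3] with N hN hs hN3
      have h7 : 1 ≤ ⌊(N : ℝ) * Real.log N ^ (-α)⌋₊ := by rwa [Nat.one_le_floor_iff]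
      have hc : (0 : ℝ) < (B N).card := by rw [hN.1]; exact_mod_cast h7
      have hN3' : (3 : ℝ) ≤ N := by exact_mod_cast hN3
      rw [div_le_iff₀ (by positivity)]
      calc (energy (B N) N : ℝ) ≤ _ := hN.2.2
        _ = _ := by ring

end Pool.Agent.Results.MP_2883d2_nt.SmallEnergy
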